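import Pool.Agent.helper83.TA.Defs

set_option autoImplicit false

/-!
# Positivity of the hermitian form over `ℚ(2^(1/3), ω)`
-/

namespace Pool.Agent.helper55.TA

open Pool.Agent.helper83.TA Polynomial

theorem exists_cbrt : ∃ c : ℝ, c ^ 3 = 2 := by
  refine ⟨2 ^ ((1 : ℝ) / 3), ?_⟩
  rw [← Real.rpow_natCast, ← Real.rpow_mul (by norm_num)]
  norm_num

theorem irr : Irreducible (X ^ 3 - C (2 : ℚ)) :=
  X_pow_sub_C_irreducible_of_prime Nat.prime_three (by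
    intro b hb
    have h1 : b.num ^ 3 = 2 := by
      rw [← Rat.num_pow, hb]
      rfl
    rcases le_or_gt b.num 1 with h | h
    · nlinarith [sq_nonneg b.num, sq_nonneg (b.num + 1), sq_nonneg (b.num - 1)]
    · have h2 : 2 ≤ b.num := h
      nlinarith [sq_nonneg b.num, mul_nonneg (sub_nonneg.2 h2) (sub_nonneg.2 h2)])

theorem minpoly_cbrt (c : ℝ) (hc : c ^ 3 = 2) : minpoly ℚ c = X ^ 3 - C (2 : ℚ) := by
  refine (minpoly.eq_of_irreducible_of_monic irr ?_ ?_).symm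
  · simp [hc]
  · exact monic_X_pow_sub_C _ (by norm_num)

theorem lin_indep (c : ℝ) (hc : c ^ 3 = 2) (a0 a1 a2 : ℚ)
    (h : (a0 : ℝ) + a1 * c + a2 * c ^ 2 = 0) : a0 = 0 ∧ a1 = 0 ∧ a2 = 0 := by
  set p : ℚ[X] := C a2 * X ^ 2 + C a1 * X + C a0 with hp
  have h0 : aeval c p = 0 := by
    simp only [hp, map_add, map_mul, aeval_C, map_pow, aeval_X, eq_ratCast]
    linear_combination h
  have hp0 : p = 0 := by
    by_contra hne
    have h1 := minpoly.degree_le_of_ne_zero ℚ c hne h0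
    rw [minpoly_cbrt c hc, degree_X_pow_sub_C (by norm_num)] at h1
    have h2 : p.degree ≤ 2 := degree_quadratic_le
    have h3 := h1.trans h2
    exact absurd h3 (by decide)
  refine ⟨?_, ?_, ?_⟩
  · have := congrArg (fun q => coeff q 0) hp0
    simpa [hp, coeff_X] using this
  · have := congrArg (fun q => coeff q 1) hp0
    simpa [hp, coeff_X, coeff_C] using this
  · have := congrArg (fun q => coeff q 2) hp0
    simpa [hp, coeff_X, coeff_C] using this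

/-- the first real coordinate -/
def pA (c : ℝ) : S ℚ →+ ℝ where
  toFun x := x.a0 + x.a1 * c + x.a2 * c ^ 2
  map_zero' := by simp
  map_add' x y := by simp; ring

/-- the second real coordinate -/
def pB (c : ℝ) : S ℚ →+ ℝ where
  toFun x := x.b0 + x.b1 * c + x.b2 * c ^ 2
  map_zero' := by simp
  map_add' x y := by simp; ring

theorem pA_apply (c : ℝ) (x : S ℚ) : pA c x = x.a0 + x.a1 * c + x.a2 * c ^ 2 := rfl

theorem pB_apply (c : ℝ) (x : S ℚ) : pB c x = x.b0 + x.b1 * c + x.b2 * c ^ 2 := rfl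

theorem pA_norm (c : ℝ) (hc : c ^ 3 = 2) (x : S ℚ) :
    pA c (S.rh x * x) = pA c x ^ 2 - pA c x * pB c x + pB c x ^ 2 := by
  simp only [pA_apply, pB_apply, S.mul_a0, S.mul_a1, S.mul_a2, S.rh_a0, S.rh_a1, S.rh_a2,
    S.rh_b0, S.rh_b1, S.rh_b2]
  push_cast
  linear_combination ((-2 : ℝ) * ((x.a1 : ℝ) * x.a2 - x.a1 * x.b2 - x.a2 * x.b1 + x.b1 * x.b2) -
    ((x.a2 : ℝ) ^ 2 - x.a2 * x.b2 + x.b2 ^ 2) * c + (x.a1 * x.b2 + x.a2 * x.b1) * (-1)
    + 0) * hc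

theorem pA_natMul (c : ℝ) (n : ℕ) (y : S ℚ) : pA c ((n : S ℚ) * y) = n * pA c y := by
  rw [← nsmul_eq_mul, map_nsmul, nsmul_eq_mul]

theorem quad_nonneg (a b : ℝ) : 0 ≤ a ^ 2 - a * b + b ^ 2 := by
  nlinarith [sq_nonneg (a - b), sq_nonneg a, sq_nonneg b]

theorem quad_eq_zero {a b : ℝ} (h : a ^ 2 - a * b + b ^ 2 = 0) : a = 0 ∧ b = 0 := by
  have h1 : a ^ 2 = 0 := by
    nlinarith [sq_nonneg (a - b), sq_nonneg a, sq_nonneg b, sq_nonneg (a - 2 * b)]
  have ha : a = 0 := by simpa using h1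
  subst ha
  refine ⟨rfl, ?_⟩
  simpa using h

theorem wt_pos (k : Fin 9) : 0 < wt k := by
  fin_cases k <;> simp [wt]

/-- positivity of the form over `ℚ(2^{1/3}, ω)` -/
theorem pos (e : Fin 9 → S ℚ) (h : ∑ k, (wt k : S ℚ) * (S.rh (e k) * e k) = 0) : e = 0 := by
  obtain ⟨c, hc⟩ := exists_cbrt
  have h1 := congrArg (pA c) h
  rw [map_sum, map_zero] at h1
  have h2 : ∀ k ∈ (Finset.univ : Finset (Fin 9)),
      0 ≤ pA c ((wt k : S ℚ) * (S.rh (e k) * e k)) := by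
    intro k _
    rw [pA_natMul, pA_norm c hc]
    exact mul_nonneg (Nat.cast_nonneg _) (quad_nonneg _ _)
  rw [Finset.sum_eq_zero_iff_of_nonneg h2] at h1
  funext k
  have h3 := h1 k (Finset.mem_univ k)
  rw [pA_natMul, pA_norm c hc, mul_eq_zero] at h3
  have h4 : ((wt k : ℕ) : ℝ) ≠ 0 := Nat.cast_ne_zero.2 (wt_pos k).ne'
  obtain ⟨h5, h6⟩ := quad_eq_zero (h3.resolve_left h4)
  obtain ⟨e1, e2, e3⟩ := lin_indep c hc _ _ _ h5
  obtain ⟨e4, e5, e6⟩ := lin_indep c hc _ _ _ h6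
  ext <;> simp [e1, e2, e3, e4, e5, e6]

end Pool.Agent.helper55.TA
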