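import Pool.Agent.helper83.TA.Defs

set_option autoImplicit false

/-!
# An irreducible quintic over `ℚ(t)`
-/

namespace Pool.Agent.helper55.TA

open Pool.Agent.helper83.TA Polynomial

/-- the specialised quintic -/
noncomputable def p0 : ℤ[X] := X ^ 5 + C 12 * X ^ 3 + C (-2) * X ^ 2 + C (-6)

theorem p0_natDegree : p0.natDegree = 5 := by
  unfold p0
  compute_degree!

theorem p0_monic : p0.Monic := by
  unfold p0
  monicity!

theorem p0_coeff (n : ℕ) : p0.coeff n = (if n = 5 then 1 else 0) + 12 * (if n = 3 then 1 else 0) +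
    (-2) * (if n = 2 then 1 else 0) + (if n = 0 then -6 else 0) := by
  unfold p0
  simp only [coeff_add, coeff_X_pow, coeff_C_mul, coeff_C]

theorem p0_irr : Irreducible p0 := by
  have hprime : (Ideal.span {(2 : ℤ)}).IsPrime := by
    rw [Ideal.span_singleton_prime (by norm_num)]
    exact Int.prime_two
  refine irreducible_of_eisenstein_criterion (P := Ideal.span {(2 : ℤ)}) hprime ?_ ?_ ?_ ?_ ?_
  · rw [p0_monic.leadingCoeff, Ideal.mem_span_singleton]
    norm_num
  · intro n hn
    rw [degree_eq_natDegree p0_monic.ne_zero, p0_natDegree] at hn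
    have hn' : n < 5 := by exact_mod_cast hn
    rw [p0_coeff, Ideal.mem_span_singleton]
    interval_cases n <;> norm_num
  · rw [degree_eq_natDegree p0_monic.ne_zero, p0_natDegree]
    norm_num
  · rw [p0_coeff, Ideal.span_singleton_pow, Ideal.mem_span_singleton]
    norm_num
  · exact p0_monic.isPrimitive

theorem p0Q_irr : Irreducible (p0.map (algebraMap ℤ ℚ)) :=
  (Monic.irreducible_iff_irreducible_map_fraction_map p0_monic).1 p0_irr

/-- the quintic -/
noncomputable def p1 : (Polynomial ℚ)[X] :=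
  X ^ 5 + C 12 * X ^ 3 + C (-X) * X ^ 2 + C (-3 * X)

theorem p1_natDegree : p1.natDegree = 5 := by
  unfold p1
  compute_degree!

theorem p1_monic : p1.Monic := by
  unfold p1
  monicity!

theorem p1_map : p1.map (evalRingHom (2 : ℚ)) = p0.map (algebraMap ℤ ℚ) := by
  unfold p1 p0
  simp only [Polynomial.map_add, Polynomial.map_mul, Polynomial.map_pow, map_X, map_C]
  norm_num

theorem p1_irr : Irreducible p1 :=
  Monic.irreducible_of_irreducible_map (evalRingHom (2 : ℚ)) p1 p1_monic
    (by rw [p1_map]; exact p0Q_irr)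

theorem p2_irr : Irreducible (p1.map (algebraMap (Polynomial ℚ) F0)) :=
  (Monic.irreducible_iff_irreducible_map_fraction_map p1_monic).1 p1_irr

theorem eval_p2 {A : Type} [CommRing A] (f : F0 →+* A) (r : A) :
    eval₂ f r (p1.map (algebraMap (Polynomial ℚ) F0)) =
      r ^ 5 + 12 * r ^ 3 - f RatFunc.X * r ^ 2 - 3 * f RatFunc.X := by
  unfold p1
  simp only [Polynomial.map_add, Polynomial.map_mul, Polynomial.map_pow, map_X, map_C,
    eval₂_add, eval₂_mul, eval₂_pow, eval₂_X, eval₂_C, map_neg, map_mul, map_ofNat,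
    RatFunc.algebraMap_X, Polynomial.map_neg, Polynomial.map_ofNat, eval₂_neg, eval₂_ofNat]
  ring

theorem exists_quintic : ∃ (L : Type) (_ : Field L) (_ : Algebra F0 L) (x : L),
    Module.finrank F0 L = 5 ∧
      algebraMap F0 L RatFunc.X * (x ^ 2 + 3) = x ^ 3 * (x ^ 2 + 12) := by
  have : Fact (Irreducible (p1.map (algebraMap (Polynomial ℚ) F0))) := ⟨p2_irr⟩
  refine ⟨AdjoinRoot (p1.map (algebraMap (Polynomial ℚ) F0)), inferInstance, inferInstance,
    AdjoinRoot.root _, ?_, ?_⟩
  · rw [PowerBasis.finrank (AdjoinRoot.powerBasis p2_irr.ne_zero), AdjoinRoot.powerBasis_dim,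
      p1_monic.natDegree_map, p1_natDegree]
  · have h := AdjoinRoot.eval₂_root (p1.map (algebraMap (Polynomial ℚ) F0))
    rw [eval_p2] at h
    have h' : algebraMap F0 (AdjoinRoot (p1.map (algebraMap (Polynomial ℚ) F0))) RatFunc.X =
      AdjoinRoot.of (p1.map (algebraMap (Polynomial ℚ) F0)) RatFunc.X := rfl
    rw [h']
    linear_combination -h

end Pool.Agent.helper55.TA
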